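import Pool.Agent.Y941.SG.Fr
import Pool.Agent.Y778.SG.Stm

/-!
# SG-TF: multiple HNN extensions of torsion-free groups are torsion-free
-/

set_option autoImplicit false

namespace Pool.Agent.Y941.SG

open Pool.Agent.Y778.SG

section
variable {Γ : Type*} [Group Γ] {Y : Type*} [MulAction Γ Y]

/-- the translations as permutations -/
def actP : Γ →* Equiv.Perm (Y →₀ ℤ) where
  toFun g := ⟨act g, act g⁻¹, fun m => by rw [← act_mul, inv_mul_cancel, act_one],
    fun m => by rw [← act_mul, mul_inv_cancel, act_one]⟩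
  map_one' := by
    ext1 m
    exact act_one m
  map_mul' g h := by
    ext1 m
    exact act_mul g h m

theorem actP_apply (g : Γ) (m : Y →₀ ℤ) : actP g m = act g m := rfl

end

variable {B : Type} [Group B] (D : HD B)

/-- the vertices of the tree -/
abbrev Vx : Type := HN D ⧸ (HN.base D).range

/-- the base vertex -/
noncomputable def v0 : Vx D := ((1 : HN D) : HN D ⧸ (HN.base D).range)

theorem base_v0 (b : B) : HN.base D b • v0 D = v0 D := by
  unfold v0
  rw [MulAction.Quotient.smul_coe, smul_eq_mul, mul_one]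
  apply Eq.symm
  rw [QuotientGroup.eq, inv_one, one_mul]
  exact ⟨b, rfl⟩

/-- the edge of a stable letter -/
noncomputable def ed (p : D.I) : Vx D × Vx D →₀ ℤ :=
  Finsupp.single (v0 D, HN.t D p • v0 D) 1

theorem act_ed (p : D.I) (a : D.A p) :
    act (HN.base D (D.φ p a : B)) (ed D p) = ed D p := by
  unfold ed
  rw [act_single, Prod.smul_mk, base_v0, ← mul_smul, ← HN.t_rel, inv_mul_cancel_right, mul_smul,
    base_v0]

/-- the affine action -/
noncomputable def aff : HN D →* Equiv.Perm (Vx D × Vx D →₀ ℤ) :=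
  HN.lift ((actP (Γ := HN D)).comp (HN.base D))
    (fun p => Equiv.addRight (ed D p) * actP (HN.t D p)) (fun p a => by
      rw [mul_inv_eq_iff_eq_mul]
      ext1 m
      show act (HN.t D p) (act (HN.base D (a : B)) m) + ed D p =
        act (HN.base D (D.φ p a : B)) (act (HN.t D p) m + ed D p)
      rw [act_add, act_ed, ← act_mul, ← act_mul, ← HN.t_rel, inv_mul_cancel_right])

/-- the crossed homomorphism -/
noncomputable def dd (g : HN D) : Vx D × Vx D →₀ ℤ := aff D g 0

theorem aff_base (b : B) (m : Vx D × Vx D →₀ ℤ) : aff D (HN.base D b) m =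
    act (HN.base D b) m := by
  unfold aff
  rw [HN.lift_base]
  rfl

theorem aff_t (p : D.I) (m : Vx D × Vx D →₀ ℤ) : aff D (HN.t D p) m =
    act (HN.t D p) m + ed D p := by
  unfold aff
  rw [HN.lift_t]
  rfl

/-- the elements for which the affine action has the expected form -/
def affS : Subgroup (HN D) where
  carrier := {g | ∀ m, aff D g m = act g m + dd D g}
  one_mem' := by
    intro m
    unfold dd
    rw [map_one, Equiv.Perm.one_apply, Equiv.Perm.one_apply, act_one, add_zero]
  mul_mem' := by
    intro g h hg hh m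
    unfold dd at hg hh ⊢
    rw [map_mul, Equiv.Perm.mul_apply, Equiv.Perm.mul_apply, hh, hg, hg (aff D h 0), act_add,
      act_mul, add_assoc]
  inv_mem' := by
    intro g hg m
    have h1 : aff D g (act g⁻¹ m + dd D g⁻¹) = m := by
      have h2 := hg (dd D g⁻¹)
      rw [hg, act_add, ← act_mul, mul_inv_cancel, act_one, add_assoc, ← h2]
      unfold dd
      rw [map_inv, ← Equiv.Perm.mul_apply, mul_inv_cancel, Equiv.Perm.one_apply, add_zero]
    rw [map_inv, Equiv.Perm.inv_eq_iff_eq]
    exact h1.symm

theorem aff_eq (g : HN D) (m : Vx D × Vx D →₀ ℤ) : aff D g m = act g m + dd D g := by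
  refine HN.mem_of (affS D) (fun b m => ?_) (fun p m => ?_) g m
  · unfold dd
    rw [aff_base, aff_base, act_zero, add_zero]
  · unfold dd
    rw [aff_t, aff_t, act_zero, zero_add]

theorem dd_mul (g h : HN D) : dd D (g * h) = dd D g + act g (dd D h) := by
  have h1 : dd D (g * h) = aff D g (dd D h) := by
    unfold dd
    rw [map_mul, Equiv.Perm.mul_apply]
  rw [h1, aff_eq, add_comm]

theorem dd_one : dd D 1 = 0 := by
  unfold dd
  rw [map_one, Equiv.Perm.one_apply]

/-- the elements with the right boundary -/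
def bdS : Subgroup (HN D) where
  carrier := {g | bd (dd D g) = Finsupp.single (g • v0 D) 1 - Finsupp.single (v0 D) 1}
  one_mem' := by
    show bd (dd D 1) = _
    rw [dd_one, map_zero, one_smul, sub_self]
  mul_mem' := by
    intro g h hg hh
    show bd (dd D (g * h)) = _
    have hg' : bd (dd D g) = Finsupp.single (g • v0 D) 1 - Finsupp.single (v0 D) 1 := hg
    have hh' : bd (dd D h) = Finsupp.single (h • v0 D) 1 - Finsupp.single (v0 D) 1 := hh
    rw [dd_mul, map_add, bd_act, hg', hh', act_sub, act_single, act_single, mul_smul]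
    abel
  inv_mem' := by
    intro g hg
    show bd (dd D g⁻¹) = _
    have hg' : bd (dd D g) = Finsupp.single (g • v0 D) 1 - Finsupp.single (v0 D) 1 := hg
    have h1 := dd_mul D g⁻¹ g
    rw [inv_mul_cancel, dd_one] at h1
    have h2 : dd D g⁻¹ = - act g⁻¹ (dd D g) := eq_neg_of_add_eq_zero_left h1.symm
    rw [h2, map_neg, bd_act, hg', act_sub, act_single, act_single, inv_smul_smul]
    abel

theorem bd_dd (g : HN D) :
    bd (dd D g) = Finsupp.single (g • v0 D) 1 - Finsupp.single (v0 D) 1 := by
  refine HN.mem_of (bdS D) (fun b => ?_) (fun p => ?_) g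
  · show bd (dd D (HN.base D b)) = _
    have h : dd D (HN.base D b) = 0 := by
      unfold dd
      rw [aff_base, act_zero]
    rw [h, map_zero, base_v0, sub_self]
  · show bd (dd D (HN.t D p)) = _
    have h : dd D (HN.t D p) = ed D p := by
      unfold dd
      rw [aff_t, act_zero, zero_add]
    rw [h]
    exact bd_single _ _ _

/-- **SG-TF.** -/
theorem tf (hbase : S_Base) : S_TF := by
  intro B _ D hB c hc
  have hfin : Finite (Subgroup.zpowers c) := by
    have h := finite_zpowers.2 hc
    exact h.to_subtype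
  have := Fintype.ofFinite (Subgroup.zpowers c)
  have hf : ∀ σ ∈ Subgroup.zpowers c, ∀ x : Vx D, σ • x = x → σ = 1 := by
    intro σ hσ x hx
    induction x using QuotientGroup.induction_on with
    | H g =>
      rw [MulAction.Quotient.smul_coe, smul_eq_mul, eq_comm, QuotientGroup.eq] at hx
      obtain ⟨b, hb⟩ := hx
      have h1 : IsOfFinOrder σ := by
        obtain ⟨k, hk⟩ := Subgroup.mem_zpowers_iff.1 hσ
        obtain ⟨n, hn, h4⟩ := isOfFinOrder_iff_pow_eq_one.1 hc
        refine isOfFinOrder_iff_pow_eq_one.2 ⟨n, hn, ?_⟩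
        rw [← hk, ← zpow_natCast, ← zpow_mul, mul_comm, zpow_mul, zpow_natCast, h4, one_zpow]
      have h3 : IsOfFinOrder (HN.base D b) := by
        rw [hb]
        obtain ⟨n, hn, h4⟩ := isOfFinOrder_iff_pow_eq_one.1 h1
        refine isOfFinOrder_iff_pow_eq_one.2 ⟨n, hn, ?_⟩
        have h5 : g⁻¹ * (σ * g) = g⁻¹ * σ * g⁻¹⁻¹ := by group
        rw [h5, conj_pow, h4]
        group
      have h6 : b = 1 := by
        apply hB
        obtain ⟨n, hn, h4⟩ := isOfFinOrder_iff_pow_eq_one.1 h3
        refine isOfFinOrder_iff_pow_eq_one.2 ⟨n, hn, ?_⟩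
        apply hbase B D
        rw [map_pow, h4, map_one]
      rw [h6, map_one] at hb
      have h7 : σ = g * (g⁻¹ * (σ * g)) * g⁻¹ := by group
      rw [h7, ← hb, mul_one, mul_inv_cancel]
  have h1 := card_eq_one (Subgroup.zpowers c) hf (v0 D) (dd D) (dd_mul D) (bd_dd D)
  rw [Fintype.card_eq_one_iff] at h1
  obtain ⟨x, hx⟩ := h1
  have h2 := hx ⟨c, Subgroup.mem_zpowers c⟩
  have h3 := hx ⟨1, Subgroup.one_mem _⟩
  exact congrArg Subtype.val (h2.trans h3.symm)

end Pool.Agent.Y941.SG
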