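import Mathlib

/-!
# Free actions of finite subgroups on permutation modules

For a group `Γ` acting on `Y` and `m : Y →₀ ℤ`, `act g m` is the translate of `m`.
-/

set_option autoImplicit false

namespace Pool.Agent.Y941.SG

section
variable {Γ : Type*} [Group Γ] {Y : Type*} [MulAction Γ Y]

/-- translation -/
def act (g : Γ) (m : Y →₀ ℤ) : Y →₀ ℤ := m.equivMapDomain (MulAction.toPerm g)

theorem act_apply (g : Γ) (m : Y →₀ ℤ) (y : Y) : act g m y = m (g⁻¹ • y) := rfl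

theorem act_one (m : Y →₀ ℤ) : act (1 : Γ) m = m := by
  ext y
  rw [act_apply, inv_one, one_smul]

theorem act_mul (g h : Γ) (m : Y →₀ ℤ) : act (g * h) m = act g (act h m) := by
  ext y
  rw [act_apply, act_apply, act_apply, mul_inv_rev, mul_smul]

theorem act_add (g : Γ) (m m' : Y →₀ ℤ) : act g (m + m') = act g m + act g m' := by
  ext y
  rw [act_apply, Finsupp.add_apply, Finsupp.add_apply, act_apply, act_apply]

theorem act_sub (g : Γ) (m m' : Y →₀ ℤ) : act g (m - m') = act g m - act g m' := by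
  ext y
  rw [act_apply, Finsupp.sub_apply, Finsupp.sub_apply, act_apply, act_apply]

theorem act_zero (g : Γ) : act g (0 : Y →₀ ℤ) = 0 := by
  ext y
  rw [act_apply, Finsupp.zero_apply, Finsupp.zero_apply]

theorem act_single (g : Γ) (y : Y) (c : ℤ) :
    act g (Finsupp.single y c) = Finsupp.single (g • y) c :=
  Finsupp.equivMapDomain_single _ _ _

/-- the augmentation -/
noncomputable def aug : (Y →₀ ℤ) →ₗ[ℤ] ℤ := Finsupp.linearCombination ℤ (fun _ => (1 : ℤ))

theorem aug_act (g : Γ) (m : Y →₀ ℤ) : aug (act g m) = aug m := by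
  unfold aug act
  rw [Finsupp.linearCombination_equivMapDomain]
  rfl

theorem aug_single (y : Y) (c : ℤ) : aug (Finsupp.single y c) = c := by
  unfold aug
  rw [Finsupp.linearCombination_single, smul_eq_mul, mul_one]

/-- multiplication with a function -/
noncomputable def mulE (e : Y → ℤ) (m : Y →₀ ℤ) : Y →₀ ℤ :=
  Finsupp.onFinset m.support (fun y => e y * m y) (fun y hy => by
    rw [Finsupp.mem_support_iff]
    intro h0
    rw [h0, mul_zero] at hy
    exact hy rfl)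

theorem mulE_apply (e : Y → ℤ) (m : Y →₀ ℤ) (y : Y) : mulE e m y = e y * m y := rfl

/-- a partition of unity -/
theorem exists_unity (C : Subgroup Γ) [Fintype C]
    (hf : ∀ σ ∈ C, ∀ y : Y, σ • y = y → σ = 1) :
    ∃ e : Y → ℤ, ∀ y, ∑ τ : C, e ((τ : Γ)⁻¹ • y) = 1 := by
  classical
  set r : Y → Y := fun y => (Quotient.mk (MulAction.orbitRel C Y) y).out with hr
  have hr1 : ∀ y, ∃ τ : C, r y = τ • y := by
    intro y
    have h : (MulAction.orbitRel C Y) (r y) y := Quotient.mk_out (s := MulAction.orbitRel C Y) y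
    rw [MulAction.orbitRel_apply] at h
    obtain ⟨τ, hτ⟩ := h
    exact ⟨τ, hτ.symm⟩
  have hr2 : ∀ (τ : C) (y : Y), r (τ • y) = r y := by
    intro τ y
    have h : Quotient.mk (MulAction.orbitRel C Y) (τ • y) =
        Quotient.mk (MulAction.orbitRel C Y) y := by
      apply Quotient.sound
      show (MulAction.orbitRel C Y) (τ • y) y
      rw [MulAction.orbitRel_apply]
      exact ⟨τ, rfl⟩
    rw [hr]
    show (Quotient.mk (MulAction.orbitRel C Y) (τ • y)).out = _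
    rw [h]
  refine ⟨fun y => if r y = y then 1 else 0, fun y => ?_⟩
  obtain ⟨τ0, h0⟩ := hr1 y
  rw [Fintype.sum_eq_single (τ0⁻¹)]
  · have h1 : (((τ0⁻¹ : C) : Γ)⁻¹ • y) = r y := by
      rw [h0, Subgroup.coe_inv, inv_inv]
      rfl
    rw [h1]
    show (if r (r y) = r y then (1 : ℤ) else 0) = 1
    rw [if_pos]
    obtain ⟨τ1, h2⟩ := hr1 y
    conv_lhs => rw [h2]
    exact hr2 τ1 y
  · intro τ hτ
    show (if r ((τ : Γ)⁻¹ • y) = (τ : Γ)⁻¹ • y then (1 : ℤ) else 0) = 0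
    rw [if_neg]
    intro h1
    apply hτ
    have h2 : r ((τ : Γ)⁻¹ • y) = r y := hr2 τ⁻¹ y
    rw [h2, h0] at h1
    have h3 : ((τ : Γ) * (τ0 : Γ)) • y = y := by
      rw [mul_smul]
      have h4 : (τ0 : Γ) • y = (τ : Γ)⁻¹ • y := h1
      rw [h4, smul_inv_smul]
    have h5 := hf _ (C.mul_mem τ.2 τ0.2) y h3
    rw [eq_inv_iff_mul_eq_one]
    exact Subtype.ext h5

/-- crossed homomorphisms are principal on a finite subgroup acting freely -/
theorem exists_principal (C : Subgroup Γ) [Fintype C]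
    (hf : ∀ σ ∈ C, ∀ y : Y, σ • y = y → σ = 1) (d : Γ → Y →₀ ℤ)
    (hd : ∀ g h, d (g * h) = d g + act g (d h)) :
    ∃ z : Y →₀ ℤ, ∀ σ ∈ C, act σ z = z + d σ := by
  obtain ⟨e, he⟩ := exists_unity C hf
  refine ⟨∑ τ : C, act (τ : Γ) (mulE e (d (τ : Γ)⁻¹)), fun σ hσ => ?_⟩
  ext y
  have hz : ∀ y, (∑ τ : C, act (τ : Γ) (mulE e (d (τ : Γ)⁻¹))) y =
      ∑ τ : C, e ((τ : Γ)⁻¹ • y) * d (τ : Γ)⁻¹ ((τ : Γ)⁻¹ • y) := by
    intro y
    rw [Finsupp.finsetSum_apply]
    rfl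
  rw [act_apply, hz, Finsupp.add_apply, hz]
  have h1 : ∑ τ : C, e ((τ : Γ)⁻¹ • σ⁻¹ • y) * d (τ : Γ)⁻¹ ((τ : Γ)⁻¹ • σ⁻¹ • y) =
      ∑ ρ : C, e ((ρ : Γ)⁻¹ • y) * d ((ρ : Γ)⁻¹ * σ) ((ρ : Γ)⁻¹ • y) := by
    refine Fintype.sum_equiv (Equiv.mulLeft (⟨σ, hσ⟩ : C)) _ _ fun τ => ?_
    have e1 : (((Equiv.mulLeft (⟨σ, hσ⟩ : C)) τ : C) : Γ) = σ * τ := rfl
    rw [e1, mul_inv_rev, mul_smul, inv_mul_cancel_right]
  rw [h1]
  have h2 : ∀ ρ : C, e ((ρ : Γ)⁻¹ • y) * d ((ρ : Γ)⁻¹ * σ) ((ρ : Γ)⁻¹ • y) =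
      e ((ρ : Γ)⁻¹ • y) * d (ρ : Γ)⁻¹ ((ρ : Γ)⁻¹ • y) + e ((ρ : Γ)⁻¹ • y) * d σ y := by
    intro ρ
    rw [hd, Finsupp.add_apply, act_apply, inv_inv, smul_inv_smul, mul_add]
  rw [Finset.sum_congr rfl fun ρ _ => h2 ρ, Finset.sum_add_distrib, ← Finset.sum_mul, he, one_mul]

/-- the augmentation of an invariant element is divisible by the order of the group -/
theorem dvd_aug (C : Subgroup Γ) [Fintype C]
    (hf : ∀ σ ∈ C, ∀ y : Y, σ • y = y → σ = 1) (w : Y →₀ ℤ)
    (hw : ∀ σ ∈ C, act σ w = w) : (Fintype.card C : ℤ) ∣ aug w := by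
  obtain ⟨e, he⟩ := exists_unity C hf
  have h1 : w = ∑ τ : C, act (τ : Γ) (mulE e w) := by
    ext y
    rw [Finsupp.finsetSum_apply]
    have h2 : ∀ τ : C, act (τ : Γ) (mulE e w) y = e ((τ : Γ)⁻¹ • y) * w y := by
      intro τ
      rw [act_apply, mulE_apply]
      congr 1
      have h3 := hw _ τ.2
      conv_rhs => rw [← h3]
      rw [act_apply]
    rw [Finset.sum_congr rfl fun τ _ => h2 τ, ← Finset.sum_mul, he, one_mul]
  have h4 : aug w = Fintype.card C * aug (mulE e w) := by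
    conv_lhs => rw [h1]
    rw [map_sum]
    simp only [aug_act, Finset.sum_const, Finset.card_univ, nsmul_eq_mul]
  rw [h4]
  exact Dvd.intro _ rfl

end

section
variable {Γ : Type*} [Group Γ] {X : Type*} [MulAction Γ X]

/-- the boundary of a formal sum of edges -/
noncomputable def bd : (X × X →₀ ℤ) →ₗ[ℤ] (X →₀ ℤ) :=
  Finsupp.lmapDomain ℤ ℤ Prod.snd - Finsupp.lmapDomain ℤ ℤ Prod.fst

theorem bd_single (x y : X) (c : ℤ) :
    bd (Finsupp.single (x, y) c) = Finsupp.single y c - Finsupp.single x c := by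
  unfold bd
  rw [LinearMap.sub_apply, Finsupp.lmapDomain_apply, Finsupp.lmapDomain_apply,
    Finsupp.mapDomain_single, Finsupp.mapDomain_single]

theorem aug_bd (m : X × X →₀ ℤ) : aug (bd m) = 0 := by
  unfold bd aug
  rw [LinearMap.sub_apply, Finsupp.lmapDomain_apply, Finsupp.lmapDomain_apply, map_sub,
    Finsupp.linearCombination_mapDomain, Finsupp.linearCombination_mapDomain]
  exact sub_self _

theorem bd_act (g : Γ) (m : X × X →₀ ℤ) : bd (act g m) = act g (bd m) := by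
  unfold bd act
  rw [LinearMap.sub_apply, LinearMap.sub_apply, Finsupp.lmapDomain_apply, Finsupp.lmapDomain_apply,
    Finsupp.lmapDomain_apply, Finsupp.lmapDomain_apply, Finsupp.equivMapDomain_eq_mapDomain,
    Finsupp.equivMapDomain_eq_mapDomain]
  have h : ∀ a b : X →₀ ℤ, Finsupp.mapDomain (MulAction.toPerm g) (a - b) =
      Finsupp.mapDomain (MulAction.toPerm g) a - Finsupp.mapDomain (MulAction.toPerm g) b :=
    fun a b => map_sub (Finsupp.mapDomain.addMonoidHom (MulAction.toPerm g)) a b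
  rw [h, ← Finsupp.mapDomain_comp, ← Finsupp.mapDomain_comp, ← Finsupp.mapDomain_comp,
    ← Finsupp.mapDomain_comp]
  rfl

/-- a finite subgroup acting freely is trivial, if there is a crossed homomorphism giving paths -/
theorem card_eq_one (C : Subgroup Γ) [Fintype C]
    (hf : ∀ σ ∈ C, ∀ x : X, σ • x = x → σ = 1) (x0 : X) (d : Γ → X × X →₀ ℤ)
    (hd : ∀ g h, d (g * h) = d g + act g (d h))
    (hb : ∀ g, bd (d g) = Finsupp.single (g • x0) 1 - Finsupp.single x0 1) :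
    Fintype.card C = 1 := by
  have hf2 : ∀ σ ∈ C, ∀ x : X × X, σ • x = x → σ = 1 := by
    intro σ hσ x hx
    exact hf σ hσ x.1 (congrArg Prod.fst hx)
  obtain ⟨z, hz⟩ := exists_principal C hf2 d hd
  have h1 := dvd_aug C hf (Finsupp.single x0 1 - bd z) (fun σ hσ => by
    rw [act_sub, act_single, ← bd_act, hz σ hσ, map_add, hb]
    abel)
  rw [map_sub, aug_single, aug_bd, sub_zero] at h1
  have h2 : Fintype.card C ∣ 1 := by exact_mod_cast h1
  exact Nat.dvd_one.1 h2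

end

end Pool.Agent.Y941.SG
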